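import Mathlib

/-! Rudin (MP_b7477f_nt), row CS4: Cauchy-Schwarz twice. -/

set_option autoImplicit false

namespace Pool.Agent.Helper30.RD

open Finset

/-- **(CS4)** -/
theorem cs4 {α : Type*} (S X Y : Finset α) (hX : X ⊆ S) (hY : Y ⊆ S) (a : α → α → ℝ)
    (F F' : α → ℝ) (hF : ∀ n ∈ X, |F n| ≤ 1) (hF' : ∀ n ∈ Y, |F' n| ≤ 1)
    (h : ∀ n ∈ X, ∀ n' ∈ Y, F n * F' n' * a n n' = 1) :
    ((X.card : ℝ) * Y.card) ^ 2 ≤ ∑ n1 ∈ S, ∑ n2 ∈ S, ∑ n' ∈ S, ∑ n'' ∈ S,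
      a n1 n' * a n1 n'' * (a n2 n' * a n2 n'') := by
  set x : ℝ := (X.card : ℝ) with hx
  set y : ℝ := (Y.card : ℝ) with hy
  have hx0 : 0 ≤ x := Nat.cast_nonneg _
  have hy0 : 0 ≤ y := Nat.cast_nonneg _
  set g : α → ℝ := fun n => ∑ n' ∈ Y, F' n' * a n n' with hg
  have e1 : x * y = ∑ n ∈ X, F n * g n := by
    have e2 : ∀ n ∈ X, F n * g n = y := by
      intro n hn
      rw [hg]
      show F n * ∑ n' ∈ Y, F' n' * a n n' = y
      rw [mul_sum, hy, card_eq_sum_ones, Nat.cast_sum]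
      refine sum_congr rfl fun n' hn' => ?_
      rw [Nat.cast_one, ← h n hn n' hn']
      ring
    rw [sum_congr rfl e2, sum_const, nsmul_eq_mul]
  have sq1 : ∀ t : ℝ, |t| ≤ 1 → t ^ 2 ≤ 1 := fun t ht => by
    rw [← sq_abs]
    exact pow_le_one₀ (abs_nonneg _) ht
  -- first step
  have h1 : (x * y) ^ 2 ≤ x * ∑ n ∈ S, g n ^ 2 := by
    rw [e1]
    refine (sum_mul_sq_le_sq_mul_sq X F g).trans ?_
    refine mul_le_mul ?_ ?_ (sum_nonneg fun _ _ => sq_nonneg _) hx0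
    · rw [hx, card_eq_sum_ones, Nat.cast_sum]
      exact sum_le_sum fun n hn => by simpa using sq1 _ (hF n hn)
    · exact sum_le_sum_of_subset_of_nonneg hX fun _ _ _ => sq_nonneg _
  -- second step
  set c : α → α → ℝ := fun n' n'' => ∑ n ∈ S, a n n' * a n n'' with hc
  have h2 : ∑ n ∈ S, g n ^ 2 = ∑ p ∈ Y ×ˢ Y, (F' p.1 * F' p.2) * c p.1 p.2 := by
    have e3 : ∀ n, g n ^ 2 = ∑ p ∈ Y ×ˢ Y, (F' p.1 * F' p.2) * (a n p.1 * a n p.2) := by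
      intro n
      rw [hg]
      show (∑ n' ∈ Y, F' n' * a n n') ^ 2 = _
      rw [sq, sum_mul_sum, sum_product]
      refine sum_congr rfl fun _ _ => sum_congr rfl fun _ _ => ?_
      ring
    simp_rw [e3]
    rw [sum_comm]
    refine sum_congr rfl fun p _ => ?_
    rw [hc, mul_sum]
  have h3 : (∑ n ∈ S, g n ^ 2) ^ 2 ≤ y ^ 2 * ∑ p ∈ S ×ˢ S, c p.1 p.2 ^ 2 := by
    rw [h2]
    refine (sum_mul_sq_le_sq_mul_sq (Y ×ˢ Y) (fun p => F' p.1 * F' p.2)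
      (fun p => c p.1 p.2)).trans ?_
    refine mul_le_mul ?_ ?_ (sum_nonneg fun _ _ => sq_nonneg _) (sq_nonneg _)
    · have e4 : y ^ 2 = ∑ p ∈ Y ×ˢ Y, (1 : ℝ) := by
        rw [sum_const, card_product, nsmul_eq_mul, mul_one, hy, sq, Nat.cast_mul]
      rw [e4]
      refine sum_le_sum fun p hp => ?_
      rw [mem_product] at hp
      rw [mul_pow]
      exact mul_le_one₀ (sq1 _ (hF' _ hp.1)) (sq_nonneg _) (sq1 _ (hF' _ hp.2))
    · exact sum_le_sum_of_subset_of_nonneg (product_subset_product hY hY) fun _ _ _ => sq_nonneg _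
  have h4 : ∑ p ∈ S ×ˢ S, c p.1 p.2 ^ 2 = ∑ n1 ∈ S, ∑ n2 ∈ S, ∑ n' ∈ S, ∑ n'' ∈ S,
      a n1 n' * a n1 n'' * (a n2 n' * a n2 n'') := by
    have e5 : ∀ p : α × α, c p.1 p.2 ^ 2 = ∑ n1 ∈ S, ∑ n2 ∈ S,
        a n1 p.1 * a n1 p.2 * (a n2 p.1 * a n2 p.2) := by
      intro p
      rw [hc]
      show (∑ n ∈ S, a n p.1 * a n p.2) ^ 2 = _
      rw [sq, sum_mul_sum]
    simp_rw [e5]
    rw [sum_comm]
    refine sum_congr rfl fun n1 _ => ?_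
    rw [sum_comm]
    refine sum_congr rfl fun n2 _ => ?_
    rw [sum_product]
  rw [← h4]
  set A : ℝ := ∑ p ∈ S ×ˢ S, c p.1 p.2 ^ 2 with hA
  have hA0 : 0 ≤ A := sum_nonneg fun _ _ => sq_nonneg _
  have h5 : ((x * y) ^ 2) ^ 2 ≤ (x * y) ^ 2 * A := by
    calc ((x * y) ^ 2) ^ 2 ≤ (x * ∑ n ∈ S, g n ^ 2) ^ 2 := by
          exact pow_le_pow_left₀ (sq_nonneg _) h1 2
      _ = x ^ 2 * (∑ n ∈ S, g n ^ 2) ^ 2 := by ring
      _ ≤ x ^ 2 * (y ^ 2 * A) := mul_le_mul_of_nonneg_left h3 (sq_nonneg _)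
      _ = (x * y) ^ 2 * A := by ring
  rcases eq_or_lt_of_le (sq_nonneg (x * y)) with h6 | h6
  · rw [← h6]
    exact hA0
  · have h7 : (x * y) ^ 2 * (x * y) ^ 2 ≤ (x * y) ^ 2 * A := by
      rw [← sq]
      exact h5
    exact le_of_mul_le_mul_left h7 h6

end Pool.Agent.Helper30.RD
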