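import Pool.Agent.Helper81.SO.Nsq

/-! Rudin (MP_b7477f_nt), row JAC: sums of Jacobi symbols `J(n | r)` over odd `r ≤ Z`. -/

set_option autoImplicit false

namespace Pool.Agent.Helper30.RD

open Finset

theorem rj_zero (q : ℕ) (hq : 0 < q) (f : ℕ → ℤ) (hper : ∀ n, f n = f (n % q))
    (hmul : ∀ m n, f (m * n) = f m * f n) (a : ℕ) (ha : a.Coprime q) (hfa : f a = -1) :
    ∑ n ∈ range q, f n = 0 := by
  have hne : NeZero q := ⟨hq.ne'⟩
  have h1 : ∑ n ∈ range q, f n = ∑ x : ZMod q, f x.val := by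
    refine sum_nbij' (fun n => (n : ZMod q)) (fun x => x.val) ?_ ?_ ?_ ?_ ?_
    · intro n _
      exact mem_univ _
    · intro x _
      exact mem_range.mpr (ZMod.val_lt x)
    · intro n hn
      exact ZMod.val_cast_of_lt (mem_range.mp hn)
    · intro x _
      exact ZMod.natCast_zmod_val x
    · intro n hn
      show f n = f (n : ZMod q).val
      rw [ZMod.val_cast_of_lt (mem_range.mp hn)]
  have h2 : ∑ x : ZMod q, f x.val = ∑ x : ZMod q, f (((a : ZMod q) * x).val) := by
    have := Equiv.sum_comp (Units.mulLeft (ZMod.unitOfCoprime a ha)) (fun x : ZMod q => f x.val)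
    rw [← this]
    refine sum_congr rfl fun x _ => ?_
    rw [Units.mulLeft_apply, ZMod.coe_unitOfCoprime]
  have h3 : ∀ x : ZMod q, f (((a : ZMod q) * x).val) = - f x.val := by
    intro x
    rw [ZMod.val_mul, ZMod.val_natCast, Nat.mod_mul_mod, ← hper, hmul, hfa]
    ring
  rw [h1]
  have h4 : ∑ x : ZMod q, f x.val = - ∑ x : ZMod q, f x.val := by
    conv_lhs => rw [h2]
    rw [← sum_neg_distrib]
    exact sum_congr rfl fun x _ => h3 x
  linarith

theorem rj_shift (q : ℕ) (f : ℕ → ℤ) (hper : ∀ n, f n = f (n % q))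
    (h0 : ∑ n ∈ range q, f n = 0) (t r : ℕ) :
    ∑ n ∈ range (q * t + r), f n = ∑ n ∈ range r, f n := by
  induction t with
  | zero => simp
  | succ t ih =>
    rw [show q * (t + 1) + r = q + (q * t + r) by ring, sum_range_add, h0, zero_add]
    rw [← ih]
    refine sum_congr rfl fun n _ => ?_
    rw [hper (q + n), Nat.add_mod_left, ← hper]

theorem rj_jac_le (a : ℤ) (b : ℕ) : |jacobiSym a b| ≤ 1 := by
  rcases jacobiSym.trichotomy a b with h | h | h <;> rw [h] <;> norm_num

/-- **(JAC)** over an initial segment -/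
theorem jac_range (n : ℤ) (hs : ¬ IsSquare n) (Z : ℕ) :
    |∑ r ∈ (range Z).filter (fun r : ℕ => Odd r), jacobiSym n r| ≤ 4 * |n| := by
  have hn : n ≠ 0 := by
    rintro rfl
    exact hs ⟨0, by simp⟩
  have hn' : 0 < n.natAbs := Int.natAbs_pos.2 hn
  obtain ⟨b, hb, hJ⟩ := Pool.Agent.Helper17.SO.st_NSQ n hs
  set q : ℕ := 4 * n.natAbs with hq
  have hq0 : 0 < q := by omega
  set f : ℕ → ℤ := fun r => if Odd r then jacobiSym n r else 0 with hf
  have hodd : ∀ r : ℕ, Odd (r % q) ↔ Odd r := by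
    intro r
    rw [Nat.odd_iff, Nat.odd_iff, Nat.mod_mod_of_dvd r ⟨2 * n.natAbs, by rw [hq]; ring⟩]
  have hper : ∀ r, f r = f (r % q) := by
    intro r
    simp only [hf, hodd]
    split_ifs with h
    · exact jacobiSym.mod_right n h
    · rfl
  have hmul : ∀ m r, f (m * r) = f m * f r := by
    intro m r
    simp only [hf, Nat.odd_mul]
    by_cases h1 : Odd m
    · by_cases h2 : Odd r
      · rw [if_pos ⟨h1, h2⟩, if_pos h1, if_pos h2]
        exact jacobiSym.mul_right' n h1.pos.ne' h2.pos.ne'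
      · rw [if_neg (fun h => h2 h.2), if_neg h2, mul_zero]
    · rw [if_neg (fun h => h1 h.1), if_neg h1, zero_mul]
  have hle : ∀ r, |f r| ≤ 1 := by
    intro r
    simp only [hf]
    split_ifs
    · exact rj_jac_le n r
    · simp
  have hco : b.Coprime q := by
    have h1 : n.gcd b = 1 := by
      by_contra h
      have h2 := jacobiSym.eq_zero_iff (a := n) (b := b)
      rw [h2.2 ⟨hb.pos.ne', h⟩] at hJ
      norm_num at hJ
    have h3 : b.Coprime n.natAbs := by
      rw [Nat.coprime_comm]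
      have h4 : n.gcd b = Nat.gcd n.natAbs b := by
        rw [Int.gcd, Int.natAbs_natCast]
      rw [h4] at h1
      exact h1
    have h5 : b.Coprime 4 := by
      have h6 : b.Coprime (2 ^ 2) := Nat.Coprime.pow_right 2 (Nat.coprime_two_right.2 hb)
      exact h6
    exact Nat.Coprime.mul_right h5 h3
  have hz := rj_zero q hq0 f hper hmul b hco (by simp only [hf]; rw [if_pos hb]; exact hJ)
  have hsum : ∑ r ∈ (range Z).filter (fun r : ℕ => Odd r), jacobiSym n r = ∑ r ∈ range Z, f r := by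
    rw [sum_filter]
  rw [hsum, ← Nat.div_add_mod Z q, rj_shift q f hper hz]
  calc |∑ r ∈ range (Z % q), f r| ≤ ∑ r ∈ range (Z % q), |f r| := abs_sum_le_sum_abs _ _
    _ ≤ ∑ r ∈ range (Z % q), (1 : ℤ) := sum_le_sum fun r _ => hle r
    _ = (Z % q : ℕ) := by simp
    _ ≤ (q : ℤ) := by exact_mod_cast (Nat.mod_lt Z hq0).le
    _ = 4 * |n| := by rw [hq]; push_cast; rfl

/-- **(JAC)** over the odd `r ≤ Z`, real form -/
theorem jac_le (n : ℤ) (hs : ¬ IsSquare n) (Z : ℕ) :
    |∑ r ∈ (range (Z + 1)).filter (fun r : ℕ => Odd r), (jacobiSym n r : ℝ)| ≤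
      4 * |(n : ℝ)| := by
  have h1 := jac_range n hs (Z + 1)
  have h2 : ∑ r ∈ (range (Z + 1)).filter (fun r : ℕ => Odd r), (jacobiSym n r : ℝ) =
      ((∑ r ∈ (range (Z + 1)).filter (fun r : ℕ => Odd r), jacobiSym n r : ℤ) : ℝ) := by
    push_cast
    rfl
  rw [h2]
  exact_mod_cast h1

end Pool.Agent.Helper30.RD
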