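import Pool.Agent.Helper18.RD.Stmts
import Pool.Agent.Helper30.RD.JAC
import Pool.Agent.Helper30.RD.CS4

/-! Project RD (MP_b7477f_nt), rows PER and CS. -/

set_option autoImplicit false

namespace Pool.Agent.Helper18.RD

open Finset

theorem st_PER : ST_PER := by
  intro n _ hs Z
  have h1 := Pool.Agent.Helper30.RD.jac_range n hs (Z + 1)
  have h2 : (range (Z + 1)).filter (fun r : ℕ => Odd r) = (Icc 1 Z).filter (fun r => Odd r) := by
    ext r
    simp only [mem_filter, mem_range, mem_Icc]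
    constructor
    · rintro ⟨h, hr⟩
      exact ⟨⟨hr.pos, by omega⟩, hr⟩
    · rintro ⟨⟨_, h⟩, hr⟩
      exact ⟨by omega, hr⟩
  rwa [h2] at h1

theorem st_CS : ST_CS := by
  intro S X Y A F G κ hX hY hF hG hκ h
  have sq1 : ∀ z : ℤ, (z = 1 ∨ z = -1) → z * z = 1 := by
    rintro z (rfl | rfl) <;> norm_num
  have ab1 : ∀ z : ℤ, (z = 1 ∨ z = -1) → |(z : ℝ)| ≤ 1 := by
    rintro z (rfl | rfl) <;> norm_num
  have h1 := Pool.Agent.Helper30.RD.cs4 S X Y hX hY (fun n n' => (A n n' : ℝ))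
    (fun n => ((κ * F n : ℤ) : ℝ)) (fun n => (G n : ℝ))
    (fun n _ => ab1 _ (by
      rcases hκ with h2 | h2 <;> rcases hF n with h3 | h3 <;> rw [h2, h3] <;> norm_num))
    (fun n _ => ab1 _ (hG n)) (fun n hn n' hn' => by
      have h2 : κ * F n * G n' * A n n' = 1 := by
        rw [h n hn n' hn']
        have h3 := sq1 _ hκ
        have h4 := sq1 _ (hF n)
        have h5 := sq1 _ (hG n')
        calc κ * F n * G n' * (κ * F n * G n') = (κ * κ) * (F n * F n) * (G n' * G n') := by ring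
          _ = 1 := by rw [h3, h4, h5]; norm_num
      exact_mod_cast h2)
  have h6 : ∑ n1 ∈ S, ∑ n2 ∈ S, ∑ n' ∈ S, ∑ n'' ∈ S,
      ((A n1 n' : ℝ) * A n1 n'' * (A n2 n' * A n2 n'')) =
      ((∑ n1 ∈ S, ∑ n2 ∈ S, (∑ n' ∈ S, A n1 n' * A n2 n') ^ 2 : ℤ) : ℝ) := by
    push_cast
    refine sum_congr rfl fun n1 _ => sum_congr rfl fun n2 _ => ?_
    rw [sq, sum_mul_sum]
    refine sum_congr rfl fun n' _ => sum_congr rfl fun n'' _ => ?_
    ring
  rw [h6] at h1
  exact_mod_cast h1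

end Pool.Agent.Helper18.RD
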