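import Mathlib

/-! Rudin (MP_b7477f_nt), row TRACE: the trace of a Gram matrix on the complement of few sign
vectors. -/

set_option autoImplicit false

namespace Pool.Agent.Helper30.RD

open Finset

section
variable {ι V : Type*} [Fintype ι]

theorem inner_eq_sum (x y : EuclideanSpace ℝ ι) : inner ℝ x y = ∑ n, x n * y n := by
  rw [PiLp.inner_apply]
  refine sum_congr rfl fun n _ => ?_
  simp [mul_comm]

theorem on_sum {D : ℕ} (b : Fin D → EuclideanSpace ℝ ι) (hb : Orthonormal ℝ b) (i j : Fin D) :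
    ∑ n, b i n * b j n = if i = j then (1 : ℝ) else 0 := by
  have h1 := (orthonormal_iff_ite.1 hb) i j
  rw [← h1, inner_eq_sum]

/-- the kernel of the projection -/
theorem proj_sq {D : ℕ} (b : Fin D → EuclideanSpace ℝ ι) (hb : Orthonormal ℝ b) :
    ∑ n, ∑ n', (∑ i, b i n * b i n') ^ 2 = (D : ℝ) := by
  classical
  have e1 : ∀ n n' : ι, (∑ i, b i n * b i n') ^ 2 =
      ∑ i, ∑ j, (b i n * b j n) * (b i n' * b j n') := by
    intro n n'
    rw [sq, sum_mul_sum]
    refine sum_congr rfl fun i _ => sum_congr rfl fun j _ => ?_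
    ring
  calc ∑ n, ∑ n', (∑ i, b i n * b i n') ^ 2
      = ∑ n, ∑ n', ∑ i, ∑ j, (b i n * b j n) * (b i n' * b j n') :=
        sum_congr rfl fun n _ => sum_congr rfl fun n' _ => e1 n n'
    _ = ∑ n, ∑ i, ∑ n', ∑ j, (b i n * b j n) * (b i n' * b j n') :=
        sum_congr rfl fun n _ => sum_comm
    _ = ∑ i, ∑ n, ∑ n', ∑ j, (b i n * b j n) * (b i n' * b j n') := sum_comm
    _ = ∑ i, ∑ n, ∑ j, ∑ n', (b i n * b j n) * (b i n' * b j n') :=
        sum_congr rfl fun i _ => sum_congr rfl fun n _ => sum_comm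
    _ = ∑ i, ∑ j, ∑ n, ∑ n', (b i n * b j n) * (b i n' * b j n') :=
        sum_congr rfl fun i _ => sum_comm
    _ = ∑ i, ∑ j, (∑ n, b i n * b j n) * (∑ n', b i n' * b j n') :=
        sum_congr rfl fun i _ => sum_congr rfl fun j _ => by rw [sum_mul_sum]
    _ = ∑ i : Fin D, ∑ j : Fin D, (if i = j then (1 : ℝ) else 0) * (if i = j then (1 : ℝ) else 0) :=
        sum_congr rfl fun i _ => sum_congr rfl fun j _ => by rw [on_sum b hb]
    _ = (D : ℝ) := by simp

/-- an orthonormal family orthogonal to the vectors `e v`, `v ∈ V2` -/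
theorem exists_on (V2 : Finset V) (ε : V → ι → ℝ) (hV2 : 2 * V2.card ≤ Fintype.card ι) :
    ∃ (D : ℕ) (b : Fin D → EuclideanSpace ℝ ι), Orthonormal ℝ b ∧ Fintype.card ι ≤ 2 * D ∧
      D ≤ Fintype.card ι ∧ ∀ i, ∀ v ∈ V2, ∑ n, b i n * ε v n = 0 := by
  classical
  set e : V → EuclideanSpace ℝ ι := fun v => WithLp.toLp 2 (ε v) with he
  set U : Submodule ℝ (EuclideanSpace ℝ ι) := Submodule.span ℝ ((V2.image e : Finset _) : Set _)
    with hU
  have h1 : Module.finrank ℝ U ≤ V2.card :=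
    (finrank_span_finset_le_card (V2.image e)).trans card_image_le
  have h2 := Submodule.finrank_add_finrank_orthogonal U
  rw [finrank_euclideanSpace] at h2
  set b0 := stdOrthonormalBasis ℝ Uᗮ with hb0
  refine ⟨Module.finrank ℝ Uᗮ, fun i => (b0 i : EuclideanSpace ℝ ι), ?_, by omega, by omega, ?_⟩
  · exact b0.orthonormal.comp_linearIsometry Uᗮ.subtypeₗᵢ
  · intro i v hv
    have h3 : inner ℝ (e v) (b0 i : EuclideanSpace ℝ ι) = 0 := by
      refine Submodule.inner_right_of_mem_orthogonal (K := U) ?_ (b0 i).2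
      refine Submodule.subset_span ?_
      exact_mod_cast mem_image_of_mem e hv
    rw [inner_eq_sum] at h3
    rw [← h3]
    refine sum_congr rfl fun n _ => ?_
    rw [mul_comm]

/-- **(TRACE)** -/
theorem trace_bound (V1 V2 : Finset V) (w : V → ℝ) (ε : V → ι → ℝ) (H : ℝ) (hH : 0 ≤ H)
    (hw : ∀ v, 0 ≤ w v) (hε : ∀ v n, ε v n ^ 2 = 1) (hV2 : 2 * V2.card ≤ Fintype.card ι)
    (hG : ∀ n n', n ≠ n' → |∑ v ∈ V1, w v * ε v n * ε v n' +
      ∑ v ∈ V2, w v * ε v n * ε v n'| ≤ H) :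
    ∑ v ∈ V1, w v + ∑ v ∈ V2, w v ≤
      2 * ∑ v ∈ V1, w v + 2 * √(Fintype.card ι) * H := by
  classical
  obtain ⟨D, b, hb, hD1, hD2, hb0⟩ := exists_on V2 ε hV2
  set W1 : ℝ := ∑ v ∈ V1, w v with hW1
  set W2 : ℝ := ∑ v ∈ V2, w v with hW2
  have hW10 : 0 ≤ W1 := sum_nonneg fun v _ => hw v
  have hW20 : 0 ≤ W2 := sum_nonneg fun v _ => hw v
  set k : ℝ := (Fintype.card ι : ℝ) with hk
  have hk0 : 0 ≤ k := Nat.cast_nonneg _
  set G : ι → ι → ℝ := fun n n' => ∑ v ∈ V1, w v * ε v n * ε v n' +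
      ∑ v ∈ V2, w v * ε v n * ε v n' with hGd
  set P : ι → ι → ℝ := fun n n' => ∑ i, b i n * b i n' with hP
  -- the trace, first computation
  have e0 : ∀ (v : V) (i : Fin D), w v * (∑ n, b i n * ε v n) ^ 2 =
      ∑ n, ∑ n', (b i n * b i n') * (w v * ε v n * ε v n') := by
    intro v i
    rw [sq, sum_mul_sum, mul_sum]
    refine sum_congr rfl fun n _ => ?_
    rw [mul_sum]
    refine sum_congr rfl fun n' _ => ?_
    ring
  have e0' : ∀ (T : Finset V) (i : Fin D), ∑ v ∈ T, w v * (∑ n, b i n * ε v n) ^ 2 =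
      ∑ n, ∑ n', (b i n * b i n') * ∑ v ∈ T, w v * ε v n * ε v n' := by
    intro T i
    rw [sum_congr rfl fun v _ => e0 v i, sum_comm]
    refine sum_congr rfl fun n _ => ?_
    rw [sum_comm]
    refine sum_congr rfl fun n' _ => ?_
    rw [mul_sum]
  have e1 : ∑ i, (∑ v ∈ V1, w v * (∑ n, b i n * ε v n) ^ 2 +
      ∑ v ∈ V2, w v * (∑ n, b i n * ε v n) ^ 2) = ∑ n, ∑ n', P n n' * G n n' := by
    have e2 : ∀ i, ∑ v ∈ V1, w v * (∑ n, b i n * ε v n) ^ 2 +
        ∑ v ∈ V2, w v * (∑ n, b i n * ε v n) ^ 2 = ∑ n, ∑ n', (b i n * b i n') * G n n' := by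
      intro i
      rw [e0', e0', ← sum_add_distrib]
      refine sum_congr rfl fun n _ => ?_
      rw [← sum_add_distrib]
      refine sum_congr rfl fun n' _ => ?_
      rw [hGd]
      ring
    rw [sum_congr rfl fun i _ => e2 i, sum_comm]
    refine sum_congr rfl fun n _ => ?_
    rw [sum_comm]
    refine sum_congr rfl fun n' _ => ?_
    rw [hP, sum_mul]
  -- the second computation
  have e3 : ∑ i, (∑ v ∈ V1, w v * (∑ n, b i n * ε v n) ^ 2 +
      ∑ v ∈ V2, w v * (∑ n, b i n * ε v n) ^ 2) ≤ W1 * k := by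
    have e4 : ∀ i, ∑ v ∈ V2, w v * (∑ n, b i n * ε v n) ^ 2 = 0 := by
      intro i
      refine sum_eq_zero fun v hv => ?_
      rw [hb0 i v hv]
      ring
    simp_rw [e4, add_zero]
    rw [sum_comm, hW1, sum_mul]
    refine sum_le_sum fun v _ => ?_
    rw [← mul_sum]
    refine mul_le_mul_of_nonneg_left ?_ (hw v)
    have h5 := hb.sum_inner_products_le (s := univ) (x := WithLp.toLp 2 (ε v))
    rw [EuclideanSpace.norm_sq_eq] at h5
    have h6 : ∑ n, ‖(WithLp.toLp 2 (ε v) : EuclideanSpace ℝ ι) n‖ ^ 2 = k := by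
      have : ∀ n, ‖(WithLp.toLp 2 (ε v) : EuclideanSpace ℝ ι) n‖ ^ 2 = 1 := by
        intro n
        rw [Real.norm_eq_abs, sq_abs]
        exact hε v n
      rw [sum_congr rfl fun n _ => this n, sum_const, nsmul_eq_mul, mul_one, hk, card_univ]
    rw [h6] at h5
    refine le_trans (le_of_eq ?_) h5
    refine sum_congr rfl fun i _ => ?_
    rw [inner_eq_sum, Real.norm_eq_abs, sq_abs]
  -- the diagonal
  have e5 : ∀ n, G n n = W1 + W2 := by
    intro n
    have h7 : ∀ T : Finset V, ∑ v ∈ T, w v * ε v n * ε v n = ∑ v ∈ T, w v := by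
      intro T
      refine sum_congr rfl fun v _ => ?_
      rw [mul_assoc, ← sq, hε, mul_one]
    rw [hGd]
    show ∑ v ∈ V1, w v * ε v n * ε v n + ∑ v ∈ V2, w v * ε v n * ε v n = W1 + W2
    rw [h7, h7]
  have e6 : ∑ n, P n n = D := by
    rw [hP]
    show ∑ n, ∑ i, b i n * b i n = (D : ℝ)
    rw [sum_comm]
    have h8 : ∀ i, ∑ n, b i n * b i n = 1 := by
      intro i
      rw [on_sum b hb, if_pos rfl]
    rw [sum_congr rfl fun i _ => h8 i]
    simp
  set G' : ι → ι → ℝ := fun n n' => if n = n' then 0 else G n n' with hG'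
  have e7 : ∑ n, ∑ n', P n n' * G n n' = (W1 + W2) * D + ∑ n, ∑ n', P n n' * G' n n' := by
    have h9 : ∀ n, ∑ n', P n n' * G n n' = (W1 + W2) * P n n + ∑ n', P n n' * G' n n' := by
      intro n
      rw [← add_sum_erase univ _ (mem_univ n), ← add_sum_erase univ (fun n' => P n n' * G' n n')
        (mem_univ n), e5]
      have h10 : G' n n = 0 := if_pos rfl
      have h11 : ∑ n' ∈ univ.erase n, P n n' * G n n' = ∑ n' ∈ univ.erase n, P n n' * G' n n' := by
        refine sum_congr rfl fun n' hn' => ?_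
        have h12 : n ≠ n' := fun h => (mem_erase.1 hn').1 h.symm
        rw [hG']
        show _ = P n n' * (if n = n' then 0 else G n n')
        rw [if_neg h12]
      rw [h10, h11]
      ring
    rw [sum_congr rfl fun n _ => h9 n, sum_add_distrib, ← mul_sum, e6]
  have e8 : ∀ n n', |G' n n'| ≤ H := by
    intro n n'
    rw [hG']
    show |if n = n' then 0 else G n n'| ≤ H
    split_ifs with h
    · simpa using hH
    · exact hG n n' h
  have e9 : |∑ n, ∑ n', P n n' * G' n n'| ≤ H * (k * √k) := by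
    have h13 : |∑ n, ∑ n', P n n' * G' n n'| ≤ H * ∑ p : ι × ι, |P p.1 p.2| := by
      rw [← Fintype.sum_prod_type' (f := fun n n' => P n n' * G' n n'), mul_sum]
      refine (abs_sum_le_sum_abs _ _).trans (sum_le_sum fun p _ => ?_)
      rw [abs_mul, mul_comm]
      exact mul_le_mul_of_nonneg_right (e8 _ _) (abs_nonneg _)
    have h14 : (∑ p : ι × ι, |P p.1 p.2|) ^ 2 ≤ (k * √k) ^ 2 := by
      have h15 := sum_mul_sq_le_sq_mul_sq (univ : Finset (ι × ι)) (fun _ => (1 : ℝ))
        (fun p => |P p.1 p.2|)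
      simp only [one_mul, one_pow, sum_const, nsmul_eq_mul, mul_one, sq_abs] at h15
      refine h15.trans ?_
      have h16 : ∑ p : ι × ι, P p.1 p.2 ^ 2 = D := by
        rw [← proj_sq b hb]
        exact Fintype.sum_prod_type' (f := fun n n' => P n n' ^ 2)
      rw [h16, card_univ, Fintype.card_prod, mul_pow, Real.sq_sqrt hk0, Nat.cast_mul, ← sq]
      refine mul_le_mul_of_nonneg_left ?_ (sq_nonneg _)
      rw [hk]
      exact_mod_cast hD2
    have h17 : ∑ p : ι × ι, |P p.1 p.2| ≤ k * √k :=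
      le_of_sq_le_sq h14 (by positivity)
    exact h13.trans (mul_le_mul_of_nonneg_left h17 hH)
  have e10 : (W1 + W2) * D ≤ W1 * k + H * (k * √k) := by
    have h18 := neg_abs_le (∑ n, ∑ n', P n n' * G' n n')
    rw [e1, e7] at e3
    linarith
  rcases eq_or_lt_of_le hk0 with h0 | h0
  · have h19 : Fintype.card ι = 0 := by
      have : (Fintype.card ι : ℝ) = 0 := by rw [← hk, ← h0]
      exact_mod_cast this
    have h20 : V2 = ∅ := by
      rw [← card_eq_zero]
      omega
    have h21 : W2 = 0 := by rw [hW2, h20, sum_empty]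
    have h22 : 0 ≤ 2 * √k * H := by positivity
    linarith
  · have h23 : k ≤ 2 * D := by
      rw [hk]
      exact_mod_cast hD1
    have h24 : (W1 + W2) * k ≤ (W1 + W2) * (2 * D) :=
      mul_le_mul_of_nonneg_left h23 (by linarith)
    have h25 : (W1 + W2) * k ≤ (2 * W1 + 2 * √k * H) * k := by
      nlinarith
    exact le_of_mul_le_mul_right h25 h0

end

end Pool.Agent.Helper30.RD
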